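import Mathlib
import Pool.Agent.K7.H13.HamB

/-!
# Induced degree-one subsets of the ternary Hamming graph that meet every line

Let `n ≥ 7` and let `U` be a set of words of length `n` over `ℤ/3` which induces a subgraph of maximum degree at most
one of the Hamming graph and which meets every line (the three words that agree outside one coordinate). Then `U` is
an independent set with exactly `3 ^ (n - 1)` elements. So for `n ≥ 7` every induced degree-one set with more than
`3 ^ (n - 1)` elements misses a line; for `n = 4, 5, 6` there are sets with excess `2, 6, 18` that meet all lines.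

Sketch of the proof. If a line contains two words of `U`, its third word `w` is a centre: all `2n` neighbours of `w`
lie in `U`. Around a centre the set `U` is determined up to distance three by signs, one for every triple of
coordinates, and for every four coordinates there is a word `z` at distance four from `w` on these coordinates with
its flips in `U`. For two fixed coordinates the signs of `z` in them give a colouring of the pairs of the other `n - 2`
coordinates with four colours, in which different pairs with a common coordinate have different colours. The complete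
graph on five vertices has no such colouring, so `n - 2 ≤ 4`.
-/

set_option autoImplicit false

namespace Pool.Agent.Results.MP_669823_co.MeetsEveryLine

open Function Pool.Agent.K7.H13.Ham

/-- Every word of `U` has at most one neighbour in `U`. -/
def InducedDegreeOne {n : ℕ} (U : Set (Fin n → ZMod 3)) : Prop :=
  ∀ u ∈ U, ∀ v ∈ U, ∀ w ∈ U, hammingDist u v = 1 → hammingDist u w = 1 → v = w

/-- Every line (the three words that agree outside one coordinate) meets `U`. -/
def MeetsLines {n : ℕ} (U : Set (Fin n → ZMod 3)) : Prop :=
  ∀ (x : Fin n → ZMod 3) (i : Fin n), ∃ c : ZMod 3, Function.update x i c ∈ U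

theorem dist_update {n : ℕ} (x : Fin n → ZMod 3) (i : Fin n) (c : ZMod 3) (hc : c ≠ x i) :
    hammingDist x (update x i c) = 1 := by
  unfold hammingDist
  rw [Finset.card_eq_one]
  refine ⟨i, ?_⟩
  ext k
  simp only [Finset.mem_filter, Finset.mem_univ, true_and, Finset.mem_singleton]
  constructor
  · intro h
    by_contra hk
    rw [update_of_ne hk] at h
    exact h rfl
  · rintro rfl
    rw [update_self]; exact hc.symm

theorem hd_of {n : ℕ} {U : Set (Fin n → ZMod 3)} (hU : InducedDegreeOne U) : HD U := by
  intro x hx i j c d hc hd h1 h2
  have h := hU x hx _ h1 _ h2 (dist_update x i c hc) (dist_update x j d hd)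
  have hij : i = j := by
    by_contra hne
    have := congrFun h i
    rw [update_self, update_of_ne hne] at this
    exact hc this
  subst hij
  refine ⟨rfl, ?_⟩
  have := congrFun h i
  rwa [update_self, update_self] at this

/-- the three letters -/
def val : Option Bool → ZMod 3
  | none => 0
  | some true => 1
  | some false => 2

theorem val_inj : Injective val := by
  intro a b
  revert a b
  decide

theorem val_surj : ∀ c : ZMod 3, ∃ o, val o = c := by decide

theorem val_some : ∀ b : Bool, val (some b) ≠ 0 := by decide

theorem threeZ : ∀ a c d e : ZMod 3, c ≠ a → d ≠ a → c ≠ d → e = a ∨ e = c ∨ e = d := by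
  decide

theorem third : ∀ a b : ZMod 3, a ≠ b → ∃ r : ZMod 3, a ≠ r ∧ b ≠ r := by decide

theorem independent {n : ℕ} (hn : 7 ≤ n) {U : Set (Fin n → ZMod 3)} (hU : InducedDegreeOne U)
    (hl : MeetsLines U) : ∀ u ∈ U, ∀ v ∈ U, hammingDist u v ≠ 1 := by
  intro u hu v hv huv
  have hd := hd_of hU
  unfold hammingDist at huv
  rw [Finset.card_eq_one] at huv
  obtain ⟨i, hi⟩ := huv
  have hne : u i ≠ v i := by
    have : i ∈ ({i} : Finset (Fin n)) := Finset.mem_singleton_self i
    rw [← hi] at this
    exact (Finset.mem_filter.1 this).2
  have hv' : v = update u i (v i) := by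
    funext k
    by_cases hk : k = i
    · subst hk; rw [update_self]
    · rw [update_of_ne hk]
      by_contra hne'
      have : k ∈ ({i} : Finset (Fin n)) := by
        rw [← hi]
        exact Finset.mem_filter.2 ⟨Finset.mem_univ _, fun h => hne' h.symm⟩
      exact hk (Finset.mem_singleton.1 this)
  obtain ⟨r, hr1, hr2⟩ := third (u i) (v i) hne
  obtain ⟨w, hw⟩ : ∃ w, w = update u i r := ⟨_, rfl⟩
  have hwi : w i = r := by rw [hw, update_self]
  have cen : ∀ (j : Fin n) (e : ZMod 3), e ≠ w j → update w j e ∈ U := by
    refine center threeZ U hd hl w i (u i) (v i) (by rw [hwi]; exact hr1)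
      (by rw [hwi]; exact hr2) hne ?_ ?_
    · rw [hw, update_idem, update_eq_self]; exact hu
    · rw [hw, update_idem, ← hv']; exact hv
  let Φ : (Fin n → Option Bool) → (Fin n → ZMod 3) := fun y k => w k + val (y k)
  have hΦ : ∀ y k o, Φ (update y k o) = update (Φ y) k (w k + val o) := by
    intro y k o
    funext t
    by_cases ht : t = k
    · subst ht; simp [Φ]
    · simp [Φ, update_of_ne ht]
  refine Pool.Agent.K7.H13.Ham.main (V := {y | Φ y ∈ U}) ?_ ?_ ?_ hn
  · intro x hx i j c d hc hd' h1 h2
    have g1 : update (Φ x) i (w i + val c) ∈ U := by rw [← hΦ]; exact h1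
    have g2 : update (Φ x) j (w j + val d) ∈ U := by rw [← hΦ]; exact h2
    have k1 : w i + val c ≠ Φ x i := fun h => hc (val_inj (add_left_cancel h))
    have k2 : w j + val d ≠ Φ x j := fun h => hd' (val_inj (add_left_cancel h))
    obtain ⟨e1, e2⟩ := hd (Φ x) hx i j _ _ k1 k2 g1 g2
    subst e1
    exact ⟨rfl, val_inj (add_left_cancel e2)⟩
  · intro x k
    obtain ⟨c, hc⟩ := hl (Φ x) k
    obtain ⟨o, ho⟩ := val_surj (c - w k)
    refine ⟨o, ?_⟩
    show Φ (update x k o) ∈ U
    rw [hΦ, ho, add_sub_cancel]
    exact hc
  · intro k b
    show Φ (update O k (some b)) ∈ U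
    have hO : Φ O = w := by
      funext t
      simp [Φ, O, val]
    rw [hΦ, hO]
    apply cen
    intro h
    exact val_some b (by simpa using h)

/-- **Sets that meet every line.** For `n ≥ 7` every induced degree-one subset of the ternary Hamming graph `H(n,3)`
which meets every line is an independent set with exactly `3 ^ (n - 1)` elements. -/
theorem result (n : ℕ) (hn : 7 ≤ n) (U : Set (Fin n → ZMod 3)) (hU : InducedDegreeOne U)
    (hl : MeetsLines U) :
    (∀ u ∈ U, ∀ v ∈ U, hammingDist u v ≠ 1) ∧ Nat.card U = 3 ^ (n - 1) := by
  have hind := independent hn hU hl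
  refine ⟨hind, ?_⟩
  obtain ⟨m, rfl⟩ : ∃ m, n = m + 1 := ⟨n - 1, by omega⟩
  have hbij : Bijective (fun u : U => (Fin.tail u.1 : Fin m → ZMod 3)) := by
    constructor
    · intro u v huv
      apply Subtype.ext
      by_contra hne
      have h0 : v.1 = update u.1 0 (v.1 0) := by
        funext k
        refine Fin.cases ?_ (fun k => ?_) k
        · rw [update_self]
        · rw [update_of_ne (Fin.succ_ne_zero k)]
          exact (congrFun huv k).symm
      have h1 : v.1 0 ≠ u.1 0 := by
        intro h
        apply hne
        rw [h0, h, update_eq_self]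
      apply hind u.1 u.2 v.1 v.2
      rw [h0]
      exact dist_update _ _ _ h1
    · intro y
      obtain ⟨c, hc⟩ := hl (Fin.cons 0 y) 0
      refine ⟨⟨_, hc⟩, ?_⟩
      funext k
      simp [Fin.tail]
  rw [Nat.card_congr (Equiv.ofBijective _ hbij)]
  simp [Nat.card_eq_fintype_card, ZMod.card]

end Pool.Agent.Results.MP_669823_co.MeetsEveryLine
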